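import Pool.Agent.TH79.NW.Rot

set_option autoImplicit false

namespace Pool.Agent.TH929.UM

open Finset Pool.Agent.TH79.NW

/-- at most `b` terms -/
theorem abs_sum_le (f : ℕ → ℝ) (b : ℕ) : |∑ s ∈ range b, phi (f s)| ≤ b / 2 := by
  refine (abs_sum_le_sum_abs _ _).trans ?_
  refine (sum_le_sum fun s _ => abs_phi (f s)).trans ?_
  rw [sum_const, card_range, nsmul_eq_mul]
  linarith

/-- `a` full blocks -/
theorem abs_blocks {P : ℕ} {lam δ : ℝ} (hP : 10 ≤ P) (hl : lam = 4 + 1 / P + δ) (hδ0 : 0 ≤ δ)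
    (hδ : δ * P ^ 2 ≤ 1) (a : ℕ) : ∀ x : ℝ, |∑ s ∈ range (P * a), phi (x + lam * s)| ≤ 2 * a := by
  induction a with
  | zero => intro x; simp
  | succ a ih =>
    intro x
    rw [Nat.mul_succ, sum_range_add]
    have h1 := ih x
    have h2 : ∑ s ∈ range P, phi (x + lam * ((P * a + s : ℕ) : ℝ)) =
        ∑ s ∈ range P, phi ((x + lam * (P * a)) + (((4 : ℕ) : ℝ) + 1 / P + δ) * s) := by
      refine sum_congr rfl fun s _ => ?_
      congr 1
      rw [hl]
      push_cast
      ring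
    have h3 := sum_phi (P := P) (A0 := 4) (by omega) hδ0 hδ (x + lam * (P * a))
    rw [h2]
    push_cast
    refine (abs_add_le _ _).trans ?_
    linarith

theorem rot0 (P : ℕ) (lam δ x : ℝ) (hP : 10 ≤ P) (hl : lam = 4 + 1 / P + δ) (hδ0 : 0 ≤ δ)
    (hδ : δ * P ^ 2 ≤ 1) (N : ℕ) :
    |∑ s ∈ range N, phi (x + lam * s)| ≤ 2 * N / P + P / 2 ∧
    |∑ s ∈ range N, phi (x - lam * s)| ≤ 2 * N / P + P / 2 := by
  have hP0 : (0 : ℝ) < P := by exact_mod_cast (by omega : 0 < P)
  have key : ∀ x : ℝ, |∑ s ∈ range N, phi (x + lam * s)| ≤ 2 * N / P + P / 2 := by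
    intro x
    have hN : P * (N / P) + N % P = N := Nat.div_add_mod N P
    have hlt : N % P < P := Nat.mod_lt _ (by omega)
    have h1 : ∑ s ∈ range N, phi (x + lam * s) = ∑ s ∈ range (P * (N / P)), phi (x + lam * s) +
        ∑ s ∈ range (N % P), phi (x + lam * ((P * (N / P) + s : ℕ) : ℝ)) := by
      conv_lhs => rw [← hN]
      rw [sum_range_add]
    have h2 := abs_blocks hP hl hδ0 hδ (N / P) x
    have h3 := abs_sum_le (fun s => x + lam * ((P * (N / P) + s : ℕ) : ℝ)) (N % P)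
    have h4 : ((N / P : ℕ) : ℝ) ≤ N / P := Nat.cast_div_le
    have h5 : ((N % P : ℕ) : ℝ) ≤ P := by exact_mod_cast hlt.le
    rw [h1]
    refine (abs_add_le _ _).trans ?_
    have h6 : 2 * (N : ℝ) / P = 2 * (N / P) := by ring
    rw [h6]
    linarith
  refine ⟨key x, ?_⟩
  have h1 : ∑ s ∈ range N, phi (x - lam * s) =
      ∑ s ∈ range N, phi ((x - lam * ((N : ℝ) - 1)) + lam * s) := by
    rw [← sum_range_reflect]
    refine sum_congr rfl fun s hs => ?_
    have hs' := mem_range.1 hs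
    congr 1
    rw [show N - 1 - s = N - (1 + s) by omega, Nat.cast_sub (by omega)]
    push_cast
    ring
  rw [h1]
  exact key _

end Pool.Agent.TH929.UM
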