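import Pool.Agent.TH266.UM.Cnt
import Pool.Agent.TH929.UM.Rot0

/-! N13 CNTN: the total count is the main term up to the error. -/

set_option autoImplicit false

namespace Pool.Agent.TH929.UM

open Finset Pool.Agent.TH79.NW Pool.Agent.TH266.UM

theorem lt_hh {k j : ℕ} (hj : j < k) (H i : ℕ) : i < hh k H j ↔ j + k * i < H := by
  unfold hh
  rw [← Nat.succ_le_iff, Nat.le_div_iff_mul_le (by omega), Nat.succ_mul, mul_comm i k]
  omega

theorem hh_add {k j : ℕ} (hj : j < k) (H : ℕ) : hh k (H + k) j = hh k H j + 1 := by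
  unfold hh
  rw [show H + k + (k - 1 - j) = (H + (k - 1 - j)) + k by omega, Nat.add_div_right _ (by omega)]

theorem hh_mono {k H H' : ℕ} (h : H ≤ H') (j : ℕ) : hh k H j ≤ hh k H' j := by
  unfold hh
  exact Nat.div_le_div_right (by omega)

theorem hh_succ {k j : ℕ} (hj : j < k) (H : ℕ) :
    hh k (H + 1) j = if j = H % k then hh k H j + 1 else hh k H j := by
  have hdm : H % k + k * (H / k) = H := by
    have := Nat.mod_add_div H k
    exact this
  split_ifs with h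
  · have h1 : hh k H j = H / k := by
      refine eq_of_forall_lt_iff fun i => ?_
      rw [lt_hh hj]
      constructor
      · intro h2
        by_contra h3
        have h4 : k * (H / k) ≤ k * i := Nat.mul_le_mul_left k (not_lt.1 h3)
        omega
      · intro h2
        have h4 : k * (i + 1) ≤ k * (H / k) := Nat.mul_le_mul_left k h2
        rw [Nat.mul_add, Nat.mul_one] at h4
        omega
    have h2 : hh k (H + 1) j = H / k + 1 := by
      refine eq_of_forall_lt_iff fun i => ?_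
      rw [lt_hh hj]
      constructor
      · intro h2
        by_contra h3
        have h4 : k * (H / k + 1) ≤ k * i := Nat.mul_le_mul_left k (not_lt.1 h3)
        rw [Nat.mul_add, Nat.mul_one] at h4
        omega
      · intro h2
        have h4 : k * i ≤ k * (H / k) := Nat.mul_le_mul_left k (Nat.lt_succ_iff.1 h2)
        omega
    rw [h1, h2]
  · refine eq_of_forall_lt_iff fun i => ?_
    rw [lt_hh hj, lt_hh hj]
    have h1 : j + k * i ≠ H := by
      intro h2
      apply h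
      rw [← h2, Nat.add_mul_mod_self_left, Nat.mod_eq_of_lt hj]
    omega

theorem sum_hh {k : ℕ} (hk : 1 ≤ k) (f : ℕ → ℝ) (H : ℕ) :
    ∑ j ∈ range k, ∑ i ∈ range (hh k H j), f (j + k * i) = ∑ J ∈ range H, f J := by
  induction H with
  | zero =>
    rw [range_zero, sum_empty]
    refine sum_eq_zero fun j hj => ?_
    have h1 : hh k 0 j = 0 := by
      by_contra h
      have h2 := (lt_hh (mem_range.1 hj) 0 0).1 (by omega)
      omega
    rw [h1, range_zero, sum_empty]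
  | succ H ih =>
    rw [sum_range_succ, ← ih]
    have hmem : H % k ∈ range k := mem_range.2 (Nat.mod_lt _ (by omega))
    rw [← add_sum_erase _ _ hmem, ← add_sum_erase (range k)
      (fun j => ∑ i ∈ range (hh k H j), f (j + k * i)) hmem]
    have h1 : hh k H (H % k) = H / k := by
      refine eq_of_forall_lt_iff fun i => ?_
      have hdm : H % k + k * (H / k) = H := Nat.mod_add_div H k
      rw [lt_hh (mem_range.1 hmem)]
      constructor
      · intro h2
        by_contra h3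
        have h4 : k * (H / k) ≤ k * i := Nat.mul_le_mul_left k (not_lt.1 h3)
        omega
      · intro h2
        have h4 : k * (i + 1) ≤ k * (H / k) := Nat.mul_le_mul_left k h2
        rw [Nat.mul_add, Nat.mul_one] at h4
        omega
    have h2 : ∑ i ∈ range (hh k (H + 1) (H % k)), f (H % k + k * i) =
        ∑ i ∈ range (hh k H (H % k)), f (H % k + k * i) + f H := by
      rw [hh_succ (mem_range.1 hmem), if_pos rfl, sum_range_succ, h1, Nat.mod_add_div]
    have h3 : ∑ j ∈ (range k).erase (H % k), ∑ i ∈ range (hh k (H + 1) j), f (j + k * i) =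
        ∑ j ∈ (range k).erase (H % k), ∑ i ∈ range (hh k H j), f (j + k * i) := by
      refine sum_congr rfl fun j hj => ?_
      obtain ⟨h4, h5⟩ := mem_erase.1 hj
      rw [hh_succ (mem_range.1 h5), if_neg h4]
    rw [h2, h3]
    ring

theorem sum_Ico_hh {k : ℕ} (hk : 1 ≤ k) (f : ℕ → ℝ) {H H' : ℕ} (h : H ≤ H') :
    ∑ j ∈ range k, ∑ i ∈ Ico (hh k H j) (hh k H' j), f (j + k * i) = ∑ J ∈ Ico H H', f J := by
  rw [sum_Ico_eq_sub _ h, ← sum_hh hk f H', ← sum_hh hk f H, ← sum_sub_distrib]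
  exact sum_congr rfl fun j _ => sum_Ico_eq_sub _ (hh_mono h j)

theorem phi_add_int (z : ℝ) (n : ℤ) : phi (z + n) = phi z := by
  unfold phi
  rw [Int.floor_add_intCast]
  push_cast
  ring

theorem bb_eq (lam : ℝ) (v : ℤ) (k d j i : ℕ) :
    (bb lam v k d j i : ℝ) = phi ((9 - lam) * (d / 3) + lam * ((j + k * i : ℕ) : ℝ)) +
      (9 - lam) * (d / 3 - ((j + k * i : ℕ) : ℝ)) - 1 / 2 + v * i := by
  unfold bb UU
  have h1 : phi ((9 - lam) * (d / 3) + lam * ((j + k * i : ℕ) : ℝ)) =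
      phi ((9 - lam) * (d / 3 - ((j + k * i : ℕ) : ℝ))) := by
    rw [← phi_add_int ((9 - lam) * (d / 3 - ((j + k * i : ℕ) : ℝ))) (9 * ((j + k * i : ℕ) : ℤ))]
    congr 1
    push_cast
    ring
  rw [h1]
  unfold phi
  push_cast
  ring

theorem aa_eq (lam : ℝ) (v : ℤ) (k d t j i : ℕ) :
    (aa lam v k d t j i : ℝ) = -(lam * (d / 3 - ((j + k * i : ℕ) : ℝ) - k * t)) + 1 / 2 -
      phi ((lam * (d / 3) - lam * (k * t)) - lam * ((j + k * i : ℕ) : ℝ)) + v * (i + t) := by
  unfold aa LL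
  rw [Nat.zero_sub]
  push_cast
  rw [ceil_phi]
  have h1 : - -(lam * ((d : ℝ) / 3 - (j + k * (i + t)))) =
      lam * (d / 3) - lam * (k * t) - lam * (j + k * i) := by ring
  rw [h1]
  ring

theorem sum_lin (z : ℝ) (N : ℕ) : ∑ s ∈ range N, (z - 9 * (s : ℝ)) = N * z - 9 * (N * (N - 1)) / 2 := by
  induction N with
  | zero => simp
  | succ N ih =>
    rw [sum_range_succ, ih]
    push_cast
    ring

theorem aux_sum {N k P : ℝ} (hP : 0 < P) (hN : N ≤ 2 * k + 1) :
    2 * N / P + P / 2 + (2 * k / P + P / 2) + (2 * (N - k) / P + P / 2) ≤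
      8 * k / P + 4 / P + 3 / 2 * P := by
  have h3 : 2 * N / P + P / 2 + (2 * k / P + P / 2) + (2 * (N - k) / P + P / 2) =
      4 * N / P + 3 / 2 * P := by
    field_simp
    ring
  rw [h3]
  have h4 : 4 * N / P ≤ 4 * (2 * k + 1) / P := by
    apply div_le_div_of_nonneg_right _ hP.le
    linarith
  have h5 : 4 * (2 * k + 1) / P = 8 * k / P + 4 / P := by ring
  linarith

set_option maxHeartbeats 1000000 in
theorem cntn : S_CNTN := by
  intro P k v K lam δ hp d e t H Q hY hHQ hQ1 hQ2 h1 h2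
  have hP10 := hp.hP
  have hk : 1 ≤ k := le_trans (by omega) hp.hk
  have hP0 : (10 : ℝ) ≤ P := by exact_mod_cast hp.hP
  have hkR : (1 : ℝ) ≤ k := by exact_mod_cast hk
  set Y : ℝ := 3 * d - K * t with hYdef
  clear_value Y
  have hHk : H + k ≤ Q + 1 := by
    have h4 : 9 * ((H : ℝ) + k) < 9 * (Q + 2) := by have := hp.h9; linarith
    have h5 : ((H + k : ℕ) : ℝ) < ((Q + 2 : ℕ) : ℝ) := by push_cast; linarith
    have h6 : H + k < Q + 2 := by exact_mod_cast h5
    omega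
  have hQH : Q ≤ H + 2 * k := by
    have h4 : 9 * (Q : ℝ) < 9 * (H + 2 * k) + 1 := by have := hp.h18; linarith
    have h5 : 9 * (Q : ℤ) < 9 * (H + 2 * k) + 1 := by exact_mod_cast h4
    omega
  -- the two kinds of terms
  set α : ℝ := (9 - lam) * (d / 3) with hα
  set β : ℝ := lam * (d / 3) - lam * (k * t) with hβ
  clear_value α β
  have hK := hp.hlam
  have hterm : ∀ j i : ℕ, ((bb lam v k d j i + 1 - aa lam v k d t j i : ℤ) : ℝ) =
      (Y - 9 * ((j + k * i : ℕ) : ℝ)) + phi (α + lam * ((j + k * i : ℕ) : ℝ)) +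
        phi (β - lam * ((j + k * i : ℕ) : ℝ)) := by
    intro j i
    push_cast
    rw [bb_eq, aa_eq, ← hα, ← hβ, hYdef, ← hK]
    push_cast
    ring
  have hfirst : ∀ j h : ℕ, ((bb lam v k d j h + 1 - aa lam v k d t j 0 : ℤ) : ℝ) =
      (Y - 9 * ((j + k * h : ℕ) : ℝ)) + phi (α + lam * ((j + k * h : ℕ) : ℝ)) +
        phi (β - lam * (j : ℝ)) + K * h := by
    intro j h
    push_cast
    rw [bb_eq, aa_eq, ← hα, ← hβ, hYdef, ← hK]
    push_cast
    rw [mul_zero, add_zero]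
    ring
  set N : ℕ := Q + 1 - H with hN
  -- the total
  have htot : ((∑ j ∈ range k, cntj lam v k d e t H Q j : ℤ) : ℝ) =
      ∑ J ∈ Ico H (Q + 1), (Y - 9 * (J : ℝ)) + K * H - ∑ j ∈ range k, ((e - k * t - j : ℕ) : ℝ) +
      ∑ J ∈ Ico H (Q + 1), phi (α + lam * (J : ℝ)) + ∑ j ∈ range k, phi (β - lam * (j : ℝ)) +
      ∑ J ∈ Ico (H + k) (Q + 1), phi (β - lam * (J : ℝ)) := by
    have hA : ∀ f : ℕ → ℝ, ∑ j ∈ range k, f (j + k * hh k H j) = ∑ J ∈ Ico H (H + k), f J := by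
      intro f
      rw [← sum_Ico_hh hk f (show H ≤ H + k by omega)]
      refine sum_congr rfl fun j hj => ?_
      rw [hh_add (mem_range.1 hj), Nat.Ico_succ_singleton, sum_singleton]
    have hB : ∀ f : ℕ → ℝ, ∑ j ∈ range k, ∑ i ∈ Ico (hh k H j + 1) (hh k (Q + 1) j), f (j + k * i) =
        ∑ J ∈ Ico (H + k) (Q + 1), f J := by
      intro f
      rw [← sum_Ico_hh hk f hHk]
      refine sum_congr rfl fun j hj => ?_
      rw [hh_add (mem_range.1 hj)]
    have hC : ∑ j ∈ range k, ((hh k H j : ℕ) : ℝ) = H := by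
      have h3 := sum_hh hk (fun _ => (1 : ℝ)) H
      simp only [sum_const, card_range, nsmul_eq_mul, mul_one] at h3
      exact h3
    have hD : ∀ f : ℕ → ℝ, ∑ J ∈ Ico H (Q + 1), f J = ∑ J ∈ Ico H (H + k), f J +
        ∑ J ∈ Ico (H + k) (Q + 1), f J := fun f => (sum_Ico_consecutive f (by omega) hHk).symm
    have h3 : ((∑ j ∈ range k, cntj lam v k d e t H Q j : ℤ) : ℝ) = ∑ j ∈ range k,
        (((Y - 9 * ((j + k * hh k H j : ℕ) : ℝ)) + phi (α + lam * ((j + k * hh k H j : ℕ) : ℝ)) +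
          phi (β - lam * (j : ℝ)) + K * hh k H j - ((e - k * t - j : ℕ) : ℝ)) +
        ∑ i ∈ Ico (hh k H j + 1) (hh k (Q + 1) j), ((Y - 9 * ((j + k * i : ℕ) : ℝ)) +
          phi (α + lam * ((j + k * i : ℕ) : ℝ)) + phi (β - lam * ((j + k * i : ℕ) : ℝ)))) := by
      rw [Int.cast_sum]
      refine sum_congr rfl fun j _ => ?_
      unfold cntj
      rw [Int.cast_add, Int.cast_sub, hfirst, Int.cast_sum]
      congr 1
      exact sum_congr rfl fun i _ => hterm j i
    rw [h3]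
    simp only [sum_add_distrib, sum_sub_distrib]
    rw [hA fun J => phi (α + lam * (J : ℝ)), hB fun J => phi (α + lam * (J : ℝ)),
      hB fun J => phi (β - lam * (J : ℝ)), hD fun J => phi (α + lam * (J : ℝ))]
    have hC' : ∑ j ∈ range k, K * ((hh k H j : ℕ) : ℝ) = K * H := by rw [← mul_sum, hC]
    have h4 : ∑ j ∈ range k, Y - ∑ j ∈ range k, 9 * ((j + k * hh k H j : ℕ) : ℝ) =
        ∑ J ∈ Ico H (H + k), (Y - 9 * (J : ℝ)) := by
      rw [← hA fun J => Y - 9 * (J : ℝ), sum_sub_distrib]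
    have h5 : ∑ j ∈ range k, ∑ i ∈ Ico (hh k H j + 1) (hh k (Q + 1) j), Y -
        ∑ j ∈ range k, ∑ i ∈ Ico (hh k H j + 1) (hh k (Q + 1) j), 9 * ((j + k * i : ℕ) : ℝ) =
        ∑ J ∈ Ico (H + k) (Q + 1), (Y - 9 * (J : ℝ)) := by
      rw [← hB fun J => Y - 9 * (J : ℝ), ← sum_sub_distrib]
      exact sum_congr rfl fun j _ => (sum_sub_distrib _ _).symm
    have h6 : ∑ J ∈ Ico H (Q + 1), (Y - 9 * (J : ℝ)) = ∑ J ∈ Ico H (H + k), (Y - 9 * (J : ℝ)) +
        ∑ J ∈ Ico (H + k) (Q + 1), (Y - 9 * (J : ℝ)) := hD _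
    simp only [sum_sub_distrib] at h4 h5 h6 ⊢
    linarith
  -- the rounding errors
  have hrot := fun x => rot0 P lam δ x hp.hP hp.hrot hp.hδ0 hp.hδ
  have hΦ1 : |∑ J ∈ Ico H (Q + 1), phi (α + lam * (J : ℝ))| ≤ 2 * N / P + P / 2 := by
    rw [sum_Ico_eq_sum_range, ← hN]
    have h3 := (hrot (α + lam * H) N).1
    refine le_trans (le_of_eq ?_) h3
    congr 1
    refine sum_congr rfl fun s _ => ?_
    congr 1
    push_cast
    ring
  have hΦ2 := (hrot β k).2
  have hΦ3 : |∑ J ∈ Ico (H + k) (Q + 1), phi (β - lam * (J : ℝ))| ≤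
      2 * ((N - k : ℕ) : ℝ) / P + P / 2 := by
    rw [sum_Ico_eq_sum_range, show Q + 1 - (H + k) = N - k by omega]
    have h3 := (hrot (β - lam * (H + k)) (N - k)).2
    refine le_trans (le_of_eq ?_) h3
    congr 1
    refine sum_congr rfl fun s _ => ?_
    congr 1
    push_cast
    ring
  -- the smooth part
  have hNR : (N : ℝ) = Q + 1 - H := by
    rw [hN, Nat.cast_sub (by omega)]
    push_cast
    ring
  have hNk : ((N - k : ℕ) : ℝ) = N - k := Nat.cast_sub (by omega)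
  have hsm : ∑ J ∈ Ico H (Q + 1), (Y - 9 * (J : ℝ)) = N * (Y - 9 * H) - 9 * (N * (N - 1)) / 2 := by
    rw [sum_Ico_eq_sum_range, ← hN, ← sum_lin]
    refine sum_congr rfl fun s _ => ?_
    push_cast
    ring
  set w : ℝ := K - (Y - 9 * H) with hw
  set y : ℝ := Y - 9 * Q with hy
  have hdiff : ∑ J ∈ Ico H (Q + 1), (Y - 9 * (J : ℝ)) + K * H -
      (K / 3 * (d + 3 / 2) - K ^ 2 / 9 * (t + 1 / 2)) = (w ^ 2 - 9 * w + 9 * y - y ^ 2) / 18 := by
    rw [hsm, hNR, hw, hy, hYdef]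
    ring
  have hw0 : 0 ≤ w := by rw [hw]; linarith
  have hw9 : w ≤ 9 := by rw [hw]; linarith
  have hy0 : 0 ≤ y := by rw [hy]; linarith
  have hy9 : y ≤ 9 := by rw [hy]; linarith
  have hD1 : |(w ^ 2 - 9 * w + 9 * y - y ^ 2) / 18| ≤ 9 / 8 := by
    rw [abs_le]
    constructor
    · nlinarith [sq_nonneg (w - 9 / 2), mul_nonneg hy0 (sub_nonneg.2 hy9)]
    · nlinarith [sq_nonneg (y - 9 / 2), mul_nonneg hw0 (sub_nonneg.2 hw9)]
  have hfin : ((∑ j ∈ range k, cntj lam v k d e t H Q j : ℤ) : ℝ) - main K k d e t =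
      (w ^ 2 - 9 * w + 9 * y - y ^ 2) / 18 +
      (∑ J ∈ Ico H (Q + 1), phi (α + lam * (J : ℝ)) + ∑ j ∈ range k, phi (β - lam * (j : ℝ)) +
      ∑ J ∈ Ico (H + k) (Q + 1), phi (β - lam * (J : ℝ))) := by
    rw [htot, ← hdiff]
    unfold main
    ring
  rw [hfin]
  unfold err
  have hN2 : (N : ℝ) ≤ 2 * k + 1 := by
    have : N ≤ 2 * k + 1 := by omega
    exact_mod_cast this
  have hsum := aux_sum (N := N) (by linarith : (0 : ℝ) < P) hN2 (k := (k : ℝ)) (P := (P : ℝ))
  rw [← hNk] at hsum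
  have h4P : 4 / (P : ℝ) ≤ 4 / 10 := div_le_div_of_nonneg_left (by norm_num) (by norm_num) hP0
  have habs := abs_add_le ((w ^ 2 - 9 * w + 9 * y - y ^ 2) / 18)
    (∑ J ∈ Ico H (Q + 1), phi (α + lam * (J : ℝ)) + ∑ j ∈ range k, phi (β - lam * (j : ℝ)) +
      ∑ J ∈ Ico (H + k) (Q + 1), phi (β - lam * (J : ℝ)))
  have habs2 := abs_add_le
    (∑ J ∈ Ico H (Q + 1), phi (α + lam * (J : ℝ)) + ∑ j ∈ range k, phi (β - lam * (j : ℝ)))
    (∑ J ∈ Ico (H + k) (Q + 1), phi (β - lam * (J : ℝ)))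
  have habs3 := abs_add_le (∑ J ∈ Ico H (Q + 1), phi (α + lam * (J : ℝ)))
    (∑ j ∈ range k, phi (β - lam * (j : ℝ)))
  linarith

end Pool.Agent.TH929.UM
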