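import Pool.Agent.TH266.UM.Stmts
import Pool.Agent.TH929.UM.Rot0

/-! N13 ROT: rounding errors of consecutive terms of a rotation. -/

set_option autoImplicit false

namespace Pool.Agent.TH929.UM

theorem rot : Pool.Agent.TH266.UM.S_ROT :=
  fun P lam δ x hP hl h0 hδ N => rot0 P lam δ x hP hl h0 hδ N

end Pool.Agent.TH929.UM
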